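import Pool.Agent.Helper5.RO.Goals
import Pool.Agent.Helper29.BL.ADD

/-!
# Project RO (MP_a41896_nt), packet SHIFT
-/

set_option autoImplicit false

namespace Pool.Agent.Helper23.RO

open WeierstrassCurve MvPolynomial
open Pool.Agent.Helper29.BL Pool.Agent.Helper5.RO

theorem xRep_of_ne {F : Type} [Field F] {W : Affine F} {P : W.Point} (h : P ≠ 0) :
    P.xRep = ![xc P, 1] := by
  cases P with
  | zero => exact absurd rfl h
  | some x y hxy => rfl

theorem gSHIFT (hMUL : G_MUL) (hNF : G_NF) (hDEG : G_DEG) (hHVAL : G_HVAL) (hHEV : G_HEV) :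
    G_SHIFT := by
  classical
  intro K _ _ instD W _ n ρ c
  obtain ⟨D, hD⟩ : ∃ D, ∀ i, degreeOf i ρ ≤ D :=
    ⟨ρ.totalDegree, fun i => degreeOf_le_totalDegree ρ i⟩
  obtain ⟨N, hN⟩ := hNF n K D ρ hD
  choose A B hAB using fun i => hMUL K W (c i)
  obtain ⟨hdeg, -, hlead⟩ := hDEG K W n D c A B hAB ρ N hN
  set a := aa n D c with ha
  refine ⟨2 * a + n + 1, ?_⟩
  intro P z t hP hz hρ
  -- the polynomial
  set H : Polynomial K := (HP W A B N).map (eval₂Hom (RingHom.id K) (fun i => xc (z i))) with hH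
  have hHdeg : H.natDegree ≤ a := (Polynomial.natDegree_map_le).trans hdeg
  have hHc : H.coeff a = (eval (fun i => xc (z i)) ρ) ^ 2 ^ n := by
    rw [hH, Polynomial.coeff_map, hlead, map_pow]
    rfl
  have hH0 : H ≠ 0 := by
    intro h
    rw [h, Polynomial.coeff_zero] at hHc
    exact pow_ne_zero _ hρ hHc.symm
  have hroots : H.roots.toFinset.card ≤ a :=
    (Multiset.toFinset_card_le _).trans ((Polynomial.card_roots' H).trans hHdeg)
  -- points which are not roots
  have key : ∀ w : W.Point, w ≠ 0 → (∀ i, z i - c i • w ≠ 0) → H.eval (xc w) ≠ 0 →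
      eval (fun i => xc (z i - c i • w)) ρ ≠ 0 := by
    intro w hw hzw hev
    obtain ⟨κ, hκ, -, hval⟩ := hHVAL K W n D c A B hAB ρ N hN K (RingHom.id K) W
      (WeierstrassCurve.map_id W).symm w z hw hz
    rw [hH, hval] at hev
    have h1 := Finset.prod_ne_zero_iff.1 hev ∅ (Finset.mem_univ _)
    simp only [Finset.notMem_empty, if_false] at h1
    have h2 : (fun i => (c i • w - z i).xRep) = fun i => ![xc (z i - c i • w), 1] := by
      funext i
      rw [← neg_sub, Affine.Point.xRep_neg, xRep_of_ne (hzw i)]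
    rw [h2, hHEV.2.2.1 K K (RingHom.id K) n D ρ] at h1
    exact h1
  by_contra hcon
  push Not at hcon
  have hinj : ∀ s s' : ℕ, (t + (s : ℤ)) • P = (t + (s' : ℤ)) • P → s = s' := by
    intro s s' h
    by_contra hne
    apply hP ((s : ℤ) - s') (by omega)
    have e : ((s : ℤ) - s') • P = (t + (s : ℤ)) • P - (t + (s' : ℤ)) • P := by
      rw [← sub_smul]
      congr 1
      ring
    rw [e, h, sub_self]
  set T := Finset.range (2 * a + n + 1 + 1) with hT
  set E0 := T.filter (fun s : ℕ => (t + (s : ℤ)) • P = 0) with hE0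
  set E : Fin n → Finset ℕ := fun i => T.filter (fun s : ℕ => z i - c i • ((t + (s : ℤ)) • P) = 0)
    with hE
  set R : K → Finset ℕ := fun r => T.filter (fun s : ℕ => (t + (s : ℤ)) • P ≠ 0 ∧
    xc ((t + (s : ℤ)) • P) = r) with hR
  have c0 : E0.card ≤ 1 := by
    rw [Finset.card_le_one]
    intro s hs s' hs'
    apply hinj
    rw [(Finset.mem_filter.1 hs).2, (Finset.mem_filter.1 hs').2]
  have c1 : ∀ i, (E i).card ≤ 1 := by
    intro i
    rw [Finset.card_le_one]
    intro s hs s' hs'
    have e1 := (Finset.mem_filter.1 hs).2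
    have e2 := (Finset.mem_filter.1 hs').2
    by_contra hne
    by_cases hc : c i = 0
    · apply hz i
      rw [hc, zero_smul, sub_zero] at e1
      exact e1
    · apply hP ((c i : ℤ) * ((s : ℤ) - s'))
        (mul_ne_zero (by exact_mod_cast hc) (by omega))
      have e3 : ((c i : ℤ) * ((s : ℤ) - s')) • P =
          c i • ((t + (s : ℤ)) • P) - c i • ((t + (s' : ℤ)) • P) := by
        rw [← natCast_zsmul, ← natCast_zsmul, smul_smul, smul_smul, ← sub_smul]
        congr 1
        ring
      rw [e3, ← sub_eq_zero.1 e1, ← sub_eq_zero.1 e2, sub_self]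
  have c2 : ∀ r, (R r).card ≤ 2 := by
    intro r
    rcases (R r).eq_empty_or_nonempty with h | ⟨s₀, hs₀⟩
    · rw [h]
      simp
    · have hsub : R r ⊆ {s₀, (-2 * t - s₀).toNat} := by
        intro s hs
        have e1 := (Finset.mem_filter.1 hs).2
        have e2 := (Finset.mem_filter.1 hs₀).2
        rw [Finset.mem_insert, Finset.mem_singleton]
        rcases ((xeq K W).1 _ _ e1.1 e2.1).1 (e1.2.trans e2.2.symm) with h | h
        · exact Or.inl (hinj _ _ h)
        · right
          have e3 : (2 * t + s + s₀ : ℤ) • P = 0 := by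
            have e4 : (2 * t + s + s₀ : ℤ) • P = (t + (s : ℤ)) • P + (t + (s₀ : ℤ)) • P := by
              rw [← add_smul]
              congr 1
              ring
            rw [e4, h, neg_add_cancel]
          have e5 : (2 * t + s + s₀ : ℤ) = 0 := by
            by_contra hne
            exact hP _ hne e3
          omega
      exact (Finset.card_le_card hsub).trans Finset.card_le_two
  have hcov : T ⊆ (E0 ∪ Finset.univ.biUnion E) ∪ H.roots.toFinset.biUnion R := by
    intro s hs
    by_contra hn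
    rw [Finset.mem_union, Finset.mem_union, not_or, not_or] at hn
    obtain ⟨⟨n1, n2⟩, n3⟩ := hn
    have d1 : (t + (s : ℤ)) • P ≠ 0 := fun h => n1 (Finset.mem_filter.2 ⟨hs, h⟩)
    have d2 : ∀ i, z i - c i • ((t + (s : ℤ)) • P) ≠ 0 := fun i h =>
      n2 (Finset.mem_biUnion.2 ⟨i, Finset.mem_univ _, Finset.mem_filter.2 ⟨hs, h⟩⟩)
    have d3 : H.eval (xc ((t + (s : ℤ)) • P)) ≠ 0 := by
      intro h
      apply n3
      refine Finset.mem_biUnion.2 ⟨_, ?_, Finset.mem_filter.2 ⟨hs, d1, rfl⟩⟩
      rw [Multiset.mem_toFinset, Polynomial.mem_roots hH0]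
      exact h
    exact key _ d1 d2 d3 (hcon s (by rw [hT, Finset.mem_range] at hs; omega) d1 d2)
  have h1 := Finset.card_le_card hcov
  have h2 := Finset.card_union_le (E0 ∪ Finset.univ.biUnion E) (H.roots.toFinset.biUnion R)
  have h3 := Finset.card_union_le E0 (Finset.univ.biUnion E)
  have h4 := Finset.card_biUnion_le_card_mul Finset.univ E 1 fun i _ => c1 i
  have h5 := Finset.card_biUnion_le_card_mul H.roots.toFinset R 2 fun r _ => c2 r
  rw [Finset.card_univ, Fintype.card_fin] at h4
  rw [hT, Finset.card_range] at h1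
  omega

end Pool.Agent.Helper23.RO
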